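import Mathlib

/-!
# `A(n)` does not exist when `4 ∣ n`

If `n` is a positive multiple of `4`, then for no positive integer `A` there are positive rational
numbers `x, y, z` with `x + y + z = n` and `x y z = 1 / A`.

Proof. Clearing denominators one gets pairwise coprime positive integers `x, y, z` and `d` with
`A x y z = d ^ 3` and `x + y + z = n d`. An odd prime dividing `x` divides `d`, hence `y + z`, so
`- y z` is a square modulo this prime; the same holds for the other variables. One of the variables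
is even, so `d` is even and `x + y + z` is divisible by `8`. (So the form `x u² + y v² + z w²` has
zeros over all the fields `ℚ_p`, although it is positive definite.) Quadratic reciprocity for the
three Jacobi symbols gives a contradiction.
-/

set_option autoImplicit false

namespace Pool.Agent.Results.MP_1d631c_nt.NoMultipleOfFour

open scoped NumberTheorySymbols

/-- a Jacobi symbol whose numerator is a square modulo every prime dividing the denominator -/
lemma jac_one (u v : ℤ) (m : ℕ) (hm : m ≠ 0)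
    (h : ∀ p : ℕ, p.Prime → p ∣ m → (p : ℤ) ∣ u - v ^ 2 ∧ ¬ (p : ℤ) ∣ v) : J(u | m) = 1 := by
  induction m using Nat.recOnMul with
  | zero => exact absurd rfl hm
  | one => exact jacobiSym.one_right u
  | prime p hp =>
    obtain ⟨h1, h2⟩ := h p hp dvd_rfl
    have h3 : J(u | p) = J(v ^ 2 | p) := by
      apply jacobiSym.mod_left'
      exact (Int.emod_emod_of_dvd _ dvd_rfl).symm.trans ((Int.emod_emod_of_dvd _ dvd_rfl).trans
        (Int.ModEq.symm ((Int.modEq_iff_dvd).2 h1)))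
    rw [h3]
    apply jacobiSym.sq_one'
    have h4 : Nat.Coprime v.natAbs p := by
      rw [Nat.coprime_comm, Nat.Prime.coprime_iff_not_dvd hp]
      intro h5
      exact h2 (Int.natCast_dvd.2 h5)
    exact h4
  | mul a b iha ihb =>
    have ha : a ≠ 0 := fun h0 => hm (by rw [h0, zero_mul])
    have hb : b ≠ 0 := fun h0 => hm (by rw [h0, mul_zero])
    rw [jacobiSym.mul_right' u ha hb,
      iha ha (fun p hp hd => h p hp (hd.mul_right _)),
      ihb hb (fun p hp hd => h p hp (hd.mul_left _)), one_mul]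

/-- the character modulo `4` by residues -/
def f4 (m : ℕ) : ℤ := if m % 4 = 1 then 1 else -1

/-- the character modulo `8` by residues -/
def f8 (m : ℕ) : ℤ := if m = 1 ∨ m = 7 then 1 else -1

/-- the signs of quadratic reciprocity by residues -/
def fr (m n : ℕ) : ℤ := if m / 2 % 2 = 1 ∧ n / 2 % 2 = 1 then -1 else 1

lemma e4 (m : ℕ) (h : m % 2 = 1) : ZMod.χ₄ m = f4 (m % 8) := by
  have : m % 8 % 4 = m % 4 := by omega
  rw [ZMod.χ₄_nat_eq_if_mod_four, if_neg (by omega), f4, this]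

lemma e8 (m : ℕ) (h : m % 2 = 1) : ZMod.χ₈ m = f8 (m % 8) := by
  rw [ZMod.χ₈_nat_eq_if_mod_eight, if_neg (by omega), f8]

lemma er (m n : ℕ) : ((-1 : ℤ)) ^ (m / 2 * (n / 2)) = fr (m % 8) (n % 8) := by
  unfold fr
  split_ifs with h
  · have h1 : Odd (m / 2) := Nat.odd_iff.2 (by omega)
    have h2 : Odd (n / 2) := Nat.odd_iff.2 (by omega)
    exact (h1.mul h2).neg_one_pow
  · rw [not_and_or] at h
    rcases h with h | h
    · exact ((Nat.even_iff.2 (by omega)).mul_right _).neg_one_pow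
    · exact ((Nat.even_iff.2 (by omega : n / 2 % 2 = 0)).mul_left _).neg_one_pow

lemma f8_sq (m : ℕ) : f8 m ^ 2 = 1 := by
  unfold f8
  split_ifs <;> norm_num

lemma tab1 : ∀ X Y Z : Fin 8, X.1 % 2 = 1 → Y.1 % 2 = 1 → Z.1 % 2 = 1 →
    (2 * X.1 + Y.1 + Z.1) % 8 = 0 →
    f4 X.1 * f4 Y.1 * f4 Z.1 * (f8 Y.1 * f8 Z.1) * (fr X.1 Y.1 * fr X.1 Z.1 * fr Y.1 Z.1) =
      (-1 : ℤ) := by decide

lemma tab2 : ∀ X Y Z : Fin 8, X.1 % 2 = 1 → Y.1 % 2 = 1 → Z.1 % 2 = 1 →
    (4 * X.1 + Y.1 + Z.1) % 8 = 0 →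
    f4 X.1 * f4 Y.1 * f4 Z.1 * (fr X.1 Y.1 * fr X.1 Z.1 * fr Y.1 Z.1) = (-1 : ℤ) := by decide

lemma tab3 : ∀ X Y Z : Fin 8, X.1 % 2 = 1 → Y.1 % 2 = 1 → Z.1 % 2 = 1 →
    (Y.1 + Z.1) % 8 = 0 → f8 Y.1 * f8 Z.1 = 1 ∧
    f4 X.1 * f4 Y.1 * f4 Z.1 * (fr X.1 Y.1 * fr X.1 Z.1 * fr Y.1 Z.1) = (-1 : ℤ) := by decide

/-- the impossible sign -/
lemma signs (x y z a : ℕ) (hx : x % 2 = 1) (hy : y % 2 = 1) (hz : z % 2 = 1) (ha : 1 ≤ a)
    (h8 : (2 ^ a * x + y + z) % 8 = 0) :
    ZMod.χ₄ x * ZMod.χ₄ y * ZMod.χ₄ z * (ZMod.χ₈ y ^ a * ZMod.χ₈ z ^ a) *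
      ((-1) ^ (x / 2 * (y / 2)) * (-1) ^ (x / 2 * (z / 2)) * (-1) ^ (y / 2 * (z / 2))) = (-1 : ℤ) := by
  rw [e4 x hx, e4 y hy, e4 z hz, e8 y hy, e8 z hz, er, er, er]
  have lx : x % 8 < 8 := Nat.mod_lt _ (by norm_num)
  have ly : y % 8 < 8 := Nat.mod_lt _ (by norm_num)
  have lz : z % 8 < 8 := Nat.mod_lt _ (by norm_num)
  have ox : x % 8 % 2 = 1 := by omega
  have oy : y % 8 % 2 = 1 := by omega
  have oz : z % 8 % 2 = 1 := by omega
  rcases Nat.lt_or_ge a 3 with h3 | h3
  · have ha2 : a = 1 ∨ a = 2 := by omega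
    rcases ha2 with rfl | rfl
    · rw [pow_one] at h8
      have t := tab1 ⟨x % 8, lx⟩ ⟨y % 8, ly⟩ ⟨z % 8, lz⟩ ox oy oz (by simp only []; omega)
      rw [pow_one, pow_one]
      exact t
    · have t := tab2 ⟨x % 8, lx⟩ ⟨y % 8, ly⟩ ⟨z % 8, lz⟩ ox oy oz (by simp only []; omega)
      rw [f8_sq, f8_sq, one_mul, mul_one]
      exact t
  · have h0 : (2 ^ a * x) % 8 = 0 := by
      obtain ⟨b, rfl⟩ : ∃ b, a = 3 + b := ⟨a - 3, by omega⟩
      rw [pow_add, show 2 ^ 3 * 2 ^ b * x = 8 * (2 ^ b * x) by ring]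
      exact Nat.mul_mod_right _ _
    have t := tab3 ⟨x % 8, lx⟩ ⟨y % 8, ly⟩ ⟨z % 8, lz⟩ ox oy oz (by simp only []; omega)
    rw [← mul_pow, t.1, one_pow, mul_one]
    exact t.2

/-- the core: `2 ^ a x`, `y`, `z` pairwise coprime, `x`, `y`, `z` odd -/
lemma core (x y z a : ℕ) (hx : x % 2 = 1) (hy : y % 2 = 1) (hz : z % 2 = 1) (ha : 1 ≤ a)
    (h8 : (2 ^ a * x + y + z) % 8 = 0) (cxy : Nat.Coprime x y) (cxz : Nat.Coprime x z)
    (cyz : Nat.Coprime y z) (h1 : ∀ p : ℕ, p.Prime → p ∣ x → p ∣ y + z)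
    (h2 : ∀ p : ℕ, p.Prime → p ∣ y → p ∣ 2 ^ a * x + z)
    (h3 : ∀ p : ℕ, p.Prime → p ∣ z → p ∣ 2 ^ a * x + y) : False := by
  have hxo : Odd x := Nat.odd_iff.2 hx
  have hyo : Odd y := Nat.odd_iff.2 hy
  have hzo : Odd z := Nat.odd_iff.2 hz
  have J1 : J(-1 * y * z | x) = 1 := by
    apply jac_one _ (y : ℤ) x (by omega)
    intro p hp hd
    constructor
    · have h4 : (p : ℤ) ∣ (y : ℤ) + z := by exact_mod_cast h1 p hp hd
      have h5 := h4.mul_left (-(y : ℤ))
      have e : -(y : ℤ) * (y + z) = -1 * y * z - (y : ℤ) ^ 2 := by ring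
      rwa [e] at h5
    · intro h4
      have h5 : p ∣ y := by exact_mod_cast h4
      exact Nat.Prime.not_coprime_iff_dvd.2 ⟨p, hp, hd, h5⟩ cxy
  have J2 : J(-1 * (2 : ℤ) ^ a * x * z | y) = 1 := by
    apply jac_one _ (z : ℤ) y (by omega)
    intro p hp hd
    constructor
    · have h4 : (p : ℤ) ∣ (2 : ℤ) ^ a * x + z := by exact_mod_cast h2 p hp hd
      have h5 := h4.mul_left (-(z : ℤ))
      have e : -(z : ℤ) * ((2 : ℤ) ^ a * x + z) = -1 * (2 : ℤ) ^ a * x * z - (z : ℤ) ^ 2 := by ring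
      rwa [e] at h5
    · intro h4
      have h5 : p ∣ z := by exact_mod_cast h4
      exact Nat.Prime.not_coprime_iff_dvd.2 ⟨p, hp, hd, h5⟩ cyz
  have J3 : J(-1 * (2 : ℤ) ^ a * x * y | z) = 1 := by
    apply jac_one _ (y : ℤ) z (by omega)
    intro p hp hd
    constructor
    · have h4 : (p : ℤ) ∣ (2 : ℤ) ^ a * x + y := by exact_mod_cast h3 p hp hd
      have h5 := h4.mul_left (-(y : ℤ))
      have e : -(y : ℤ) * ((2 : ℤ) ^ a * x + y) = -1 * (2 : ℤ) ^ a * x * y - (y : ℤ) ^ 2 := by ring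
      rwa [e] at h5
    · intro h4
      have h5 : p ∣ y := by exact_mod_cast h4
      exact Nat.Prime.not_coprime_iff_dvd.2 ⟨p, hp, h5, hd⟩ cyz
  rw [jacobiSym.mul_left, jacobiSym.mul_left, jacobiSym.at_neg_one hxo] at J1
  rw [jacobiSym.mul_left, jacobiSym.mul_left, jacobiSym.mul_left, jacobiSym.pow_left,
    jacobiSym.at_neg_one hyo, jacobiSym.at_two hyo, jacobiSym.quadratic_reciprocity hxo hyo] at J2
  rw [jacobiSym.mul_left, jacobiSym.mul_left, jacobiSym.mul_left, jacobiSym.pow_left,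
    jacobiSym.at_neg_one hzo, jacobiSym.at_two hzo, jacobiSym.quadratic_reciprocity hxo hzo,
    jacobiSym.quadratic_reciprocity hyo hzo] at J3
  have s1 : J((y : ℤ) | x) ^ 2 = 1 := jacobiSym.sq_one (by
    rw [Int.gcd_natCast_natCast]; exact cxy.symm)
  have s2 : J((z : ℤ) | x) ^ 2 = 1 := jacobiSym.sq_one (by
    rw [Int.gcd_natCast_natCast]; exact cxz.symm)
  have s3 : J((z : ℤ) | y) ^ 2 = 1 := jacobiSym.sq_one (by
    rw [Int.gcd_natCast_natCast]; exact cyz.symm)
  have hs := signs x y z a hx hy hz ha h8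
  have hprod : (ZMod.χ₄ x * ZMod.χ₄ y * ZMod.χ₄ z * (ZMod.χ₈ y ^ a * ZMod.χ₈ z ^ a) *
      ((-1) ^ (x / 2 * (y / 2)) * (-1) ^ (x / 2 * (z / 2)) * (-1) ^ (y / 2 * (z / 2)))) *
      (J((y : ℤ) | x) ^ 2 * J((z : ℤ) | x) ^ 2 * J((z : ℤ) | y) ^ 2) = (1 : ℤ) := by
    have h := congrArg₂ (· * ·) (congrArg₂ (· * ·) J1 J2) J3
    simp only [mul_one] at h
    calc _ = _ := by ring
      _ = (1 : ℤ) := h
  rw [hs, s1, s2, s3] at hprod
  norm_num at hprod

/-- the integral form, first variable even -/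
lemma integral (A d k x y z : ℕ) (hx0 : 0 < x)
    (cxy : Nat.Coprime x y) (cxz : Nat.Coprime x z) (cyz : Nat.Coprime y z)
    (hA : A * (x * y * z) = d ^ 3) (hs : x + y + z = 4 * k * d) (hx : 2 ∣ x) : False := by
  have hd2 : 2 ∣ d := by
    have : 2 ∣ d ^ 3 := by
      rw [← hA]
      exact ((hx.mul_right y).mul_right z).mul_left A
    exact Nat.prime_two.dvd_of_dvd_pow this
  have hy : y % 2 = 1 := by
    by_contra h
    exact Nat.Prime.not_coprime_iff_dvd.2 ⟨2, Nat.prime_two, hx, by omega⟩ cxy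
  have hz : z % 2 = 1 := by
    by_contra h
    exact Nat.Prime.not_coprime_iff_dvd.2 ⟨2, Nat.prime_two, hx, by omega⟩ cxz
  obtain ⟨a, x', hx', rfl⟩ := Nat.exists_eq_two_pow_mul_odd hx0.ne'
  have ha : 1 ≤ a := by
    by_contra h
    have h0 : a = 0 := by omega
    subst h0
    rw [pow_zero, one_mul] at hx
    exact (Nat.not_even_iff_odd.2 hx') (even_iff_two_dvd.2 hx)
  have hdvd : ∀ p : ℕ, p.Prime → p ∣ A * (2 ^ a * x' * y * z) → p ∣ 2 ^ a * x' + y + z := by
    intro p hp h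
    rw [hA] at h
    rw [hs]
    exact (hp.dvd_of_dvd_pow h).mul_left _
  refine core x' y z a (Nat.odd_iff.1 hx') hy hz ha ?_ (Nat.Coprime.coprime_mul_left cxy)
    (Nat.Coprime.coprime_mul_left cxz) cyz ?_ ?_ ?_
  · rw [hs]
    obtain ⟨e, rfl⟩ := hd2
    rw [show 4 * k * (2 * e) = 8 * (k * e) by ring]
    exact Nat.mul_mod_right _ _
  · intro p hp hd
    have h1 := hdvd p hp ((((hd.mul_left (2 ^ a)).mul_right y).mul_right z).mul_left A)
    rw [add_assoc] at h1
    exact (Nat.dvd_add_right (hd.mul_left (2 ^ a))).1 h1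
  · intro p hp hd
    have h1 := hdvd p hp (((hd.mul_left (2 ^ a * x')).mul_right z).mul_left A)
    rw [show 2 ^ a * x' + y + z = y + (2 ^ a * x' + z) by ring] at h1
    exact (Nat.dvd_add_right hd).1 h1
  · intro p hp hd
    have h1 := hdvd p hp ((hd.mul_left (2 ^ a * x' * y)).mul_left A)
    rw [show 2 ^ a * x' + y + z = z + (2 ^ a * x' + y) by ring] at h1
    exact (Nat.dvd_add_right hd).1 h1

/-- the integral form -/
lemma integral' (A d k x y z : ℕ) (hx0 : 0 < x) (hy0 : 0 < y) (hz0 : 0 < z)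
    (hc : ∀ p : ℕ, p.Prime → p ∣ x → p ∣ y → p ∣ z → False)
    (hA : A * (x * y * z) = d ^ 3) (hs : x + y + z = 4 * k * d) : False := by
  have hdvd : ∀ p : ℕ, p.Prime → p ∣ x * y * z → p ∣ x + y + z := by
    intro p hp h
    have h1 : p ∣ d ^ 3 := by rw [← hA]; exact h.mul_left A
    rw [hs]
    exact (hp.dvd_of_dvd_pow h1).mul_left _
  have cxy : Nat.Coprime x y := by
    by_contra h
    obtain ⟨p, hp, h1, h2⟩ := Nat.Prime.not_coprime_iff_dvd.1 h
    have h3 := hdvd p hp ((h1.mul_right y).mul_right z)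
    exact hc p hp h1 h2 ((Nat.dvd_add_right (h1.add h2)).1 h3)
  have cxz : Nat.Coprime x z := by
    by_contra h
    obtain ⟨p, hp, h1, h2⟩ := Nat.Prime.not_coprime_iff_dvd.1 h
    have h3 := hdvd p hp ((h1.mul_right y).mul_right z)
    rw [show x + y + z = x + z + y by ring] at h3
    exact hc p hp h1 ((Nat.dvd_add_right (h1.add h2)).1 h3) h2
  have cyz : Nat.Coprime y z := by
    by_contra h
    obtain ⟨p, hp, h1, h2⟩ := Nat.Prime.not_coprime_iff_dvd.1 h
    have h3 := hdvd p hp ((h1.mul_left x).mul_right z)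
    rw [show x + y + z = y + z + x by ring] at h3
    exact hc p hp ((Nat.dvd_add_right (h1.add h2)).1 h3) h1 h2
  have hpar : 2 ∣ x ∨ 2 ∣ y ∨ 2 ∣ z := by
    have : 2 ∣ x + y + z := by rw [hs, show 4 * k * d = 2 * (2 * k * d) by ring]; exact Dvd.intro _ rfl
    omega
  rcases hpar with h | h | h
  · exact integral A d k x y z hx0 cxy cxz cyz hA hs h
  · exact integral A d k y x z hy0 cxy.symm cyz cxz (by rw [← hA]; ring) (by rw [← hs]; ring) h
  · exact integral A d k z x y hz0 cxz.symm cyz.symm cxy (by rw [← hA]; ring)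
      (by rw [← hs]; ring) h

/-- removing the common factor -/
lemma integral'' (A k : ℕ) : ∀ (d x y z : ℕ), 0 < d → 0 < x → 0 < y → 0 < z →
    A * (x * y * z) = d ^ 3 → x + y + z = 4 * k * d → False := by
  intro d
  induction d using Nat.strong_induction_on with
  | _ d ih =>
    intro x y z hd hx hy hz hA hs
    refine integral' A d k x y z hx hy hz ?_ hA hs
    intro p hp h1 h2 h3
    obtain ⟨x', rfl⟩ := h1
    obtain ⟨y', rfl⟩ := h2
    obtain ⟨z', rfl⟩ := h3
    have hpd : p ^ 3 ∣ d ^ 3 := by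
      rw [← hA]
      exact ⟨A * (x' * y' * z'), by ring⟩
    obtain ⟨d', rfl⟩ := (Nat.pow_dvd_pow_iff (by norm_num)).1 hpd
    have hp0 := hp.pos
    have hd' : 0 < d' := by
      rcases Nat.eq_zero_or_pos d' with h | h
      · rw [h, mul_zero] at hd; exact absurd hd (lt_irrefl 0)
      · exact h
    refine ih d' ?_ x' y' z' hd' ?_ ?_ ?_ ?_ ?_
    · have := hp.two_le
      nlinarith
    · rcases Nat.eq_zero_or_pos x' with h | h
      · rw [h, mul_zero] at hx; exact absurd hx (lt_irrefl 0)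
      · exact h
    · rcases Nat.eq_zero_or_pos y' with h | h
      · rw [h, mul_zero] at hy; exact absurd hy (lt_irrefl 0)
      · exact h
    · rcases Nat.eq_zero_or_pos z' with h | h
      · rw [h, mul_zero] at hz; exact absurd hz (lt_irrefl 0)
      · exact h
    · have e : p ^ 3 * (A * (x' * y' * z')) = p ^ 3 * d' ^ 3 := by
        calc p ^ 3 * (A * (x' * y' * z')) = A * (p * x' * (p * y') * (p * z')) := by ring
          _ = (p * d') ^ 3 := hA
          _ = p ^ 3 * d' ^ 3 := by ring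
      exact Nat.eq_of_mul_eq_mul_left (by positivity) e
    · have e : p * (x' + y' + z') = p * (4 * k * d') := by
        calc p * (x' + y' + z') = p * x' + p * y' + p * z' := by ring
          _ = 4 * k * (p * d') := hs
          _ = p * (4 * k * d') := by ring
      exact Nat.eq_of_mul_eq_mul_left hp0 e

/-- **Main theorem.** If `n` is a positive multiple of `4`, then `A(n)` does not exist: there are no
positive integer `A` and positive rational numbers `x, y, z` with `x + y + z = n`, `x y z = 1 / A`. -/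
theorem result (n : ℕ) (hn : 0 < n) (h4 : 4 ∣ n) :
    ¬ ∃ A : ℕ, 0 < A ∧ ∃ x y z : ℚ, 0 < x ∧ 0 < y ∧ 0 < z ∧ (n : ℚ) = x + y + z ∧
      x * y * z = 1 / (A : ℚ) := by
  rintro ⟨A, hA, x, y, z, hx, hy, hz, hsum, hprod⟩
  obtain ⟨k, rfl⟩ := h4
  -- common denominator
  set d : ℕ := x.den * y.den * z.den with hd
  have hxd := x.den_pos
  have hyd := y.den_pos
  have hzd := z.den_pos
  have hd0 : 0 < d := by positivity
  obtain ⟨a, ha⟩ : ∃ a : ℕ, (a : ℤ) = x.num := ⟨x.num.toNat, Int.toNat_of_nonneg (Rat.num_pos.2 hx).le⟩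
  obtain ⟨b, hb⟩ : ∃ b : ℕ, (b : ℤ) = y.num := ⟨y.num.toNat, Int.toNat_of_nonneg (Rat.num_pos.2 hy).le⟩
  obtain ⟨c, hc⟩ : ∃ c : ℕ, (c : ℤ) = z.num := ⟨z.num.toNat, Int.toNat_of_nonneg (Rat.num_pos.2 hz).le⟩
  have ha0 : 0 < a := by have := Rat.num_pos.2 hx; omega
  have hb0 : 0 < b := by have := Rat.num_pos.2 hy; omega
  have hc0 : 0 < c := by have := Rat.num_pos.2 hz; omega
  have ex : x = (a : ℚ) / x.den := by
    have h := (Rat.num_div_den x).symm
    rw [← ha, Int.cast_natCast] at h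
    exact h
  have ey : y = (b : ℚ) / y.den := by
    have h := (Rat.num_div_den y).symm
    rw [← hb, Int.cast_natCast] at h
    exact h
  have ez : z = (c : ℚ) / z.den := by
    have h := (Rat.num_div_den z).symm
    rw [← hc, Int.cast_natCast] at h
    exact h
  have qx : (x.den : ℚ) ≠ 0 := by positivity
  have qy : (y.den : ℚ) ≠ 0 := by positivity
  have qz : (z.den : ℚ) ≠ 0 := by positivity
  have qA : (A : ℚ) ≠ 0 := by positivity
  refine integral'' A k d (a * (y.den * z.den)) (b * (x.den * z.den)) (c * (x.den * y.den)) hd0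
    (by positivity) (by positivity) (by positivity) ?_ ?_
  · have h1 : (A : ℚ) * (x * y * z) = 1 := by rw [hprod]; field_simp
    rw [ex, ey, ez] at h1
    have h2 : (A : ℚ) * (a * b * c) = x.den * y.den * z.den := by
      field_simp at h1
      linear_combination h1
    have h3 : A * (a * b * c) = x.den * y.den * z.den := by exact_mod_cast h2
    calc A * (a * (y.den * z.den) * (b * (x.den * z.den)) * (c * (x.den * y.den)))
        = (A * (a * b * c)) * (x.den * y.den * z.den) ^ 2 := by ring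
      _ = d ^ 3 := by rw [h3, hd]; ring
  · have h1 := hsum
    rw [ex, ey, ez] at h1
    have h2 : (a : ℚ) * (y.den * z.den) + b * (x.den * z.den) + c * (x.den * y.den) =
        4 * k * (x.den * y.den * z.den) := by
      push_cast at h1
      field_simp at h1
      linear_combination -h1
    have h3 : a * (y.den * z.den) + b * (x.den * z.den) + c * (x.den * y.den) =
        4 * k * (x.den * y.den * z.den) := by exact_mod_cast h2
    rw [h3, hd]

end Pool.Agent.Results.MP_1d631c_nt.NoMultipleOfFour
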